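import Pool.Agent.Helper29.H2.St3

/-!
# Project H2, module NU: the numerical inequality from the certificate
-/

set_option autoImplicit false

namespace Pool.Agent.Helper29.H2

open Finset

private theorem nu_sv {α : Type} (x : ℕ) (f : ℕ → α) : sv x f = f x := by
  cases x <;> rfl

private theorem nu_lk_lt (w : ℕ → ℕ → ℕ) (B : ℕ) (hB : 0 < B) :
    ∀ (t : List (ℕ × ℕ × ℕ)), (∀ p ∈ t, w p.2.1 p.2.2 < B) → ∀ S, lk w t S < B
  | [], _, S => by simpa [lk] using hB
  | (l, h, v) :: t, hp, S => by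
      have h1 := hp (l, h, v) (by simp)
      have h2 := nu_lk_lt w B hB t (fun p hpt => hp p (by simp [hpt]))
      simp only [lk]
      split
      · exact h1
      · exact h2 _

private theorem nu_lk_sqv : ∀ (t : List (ℕ × ℕ × ℕ)) (S : ℕ),
    lk (fun _ v => v * v) t S = lk (fun _ v => v) t S * lk (fun _ v => v) t S
  | [], S => by simp [lk]
  | (l, h, v) :: t, S => by
      simp only [lk]
      split
      · rfl
      · exact nu_lk_sqv t _

private theorem nu_lk_sqh : ∀ (t : List (ℕ × ℕ × ℕ)) (S : ℕ),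
    lk (fun h _ => h * h) t S = lk (fun h _ => h) t S ^ 2
  | [], S => by simp [lk]
  | (l, h, v) :: t, S => by
      simp only [lk]
      split
      · ring
      · exact nu_lk_sqh t _

private theorem nu_dg_ge {b n Z i : ℕ} (hZ : Z < 2 ^ (b * n)) (hi : n ≤ i) : dg b Z i = 0 := by
  unfold dg
  have h : Z < 2 ^ (b * i) :=
    lt_of_lt_of_le hZ (Nat.pow_le_pow_right (by norm_num) (Nat.mul_le_mul_left b hi))
  rw [Nat.div_eq_of_lt h]
  simp

private theorem nu_dg_mod {b n Z i : ℕ} (hi : i < n) : dg b (Z % 2 ^ (b * n)) i = dg b Z i := by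
  unfold dg
  have h : b * n = b * i + b * (n - i) := by
    rw [← Nat.mul_add]; congr 1; omega
  rw [h, pow_add, Nat.mod_mul_right_div_self]
  have h2 : (2 ^ b : ℕ) ∣ 2 ^ (b * (n - i)) := by
    apply pow_dvd_pow
    exact Nat.le_mul_of_pos_right b (by omega)
  exact Nat.mod_mod_of_dvd _ h2

private theorem nu_gv_lt (x l : ℕ) : gv x l < 2 ^ 22 := by
  unfold gv
  have h : 2 ^ 27 / (8 * x + 4 * l + 37) ≤ 2 ^ 27 / 37 :=
    Nat.div_le_div_left (by omega) (by norm_num)
  exact lt_of_le_of_lt h (by norm_num)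

private theorem nu_gT_lt (i : ℕ) : gT i < 2 ^ 22 := nu_gv_lt _ _

private theorem nu_cf_one (g : ℕ → ℕ) (S : ℕ) : cf g 1 S = g S ^ 2 := by
  unfold cf
  rw [pow_one, PowerSeries.coeff_mk]

private theorem nu_core (h1 : StD1) (h2 : StD2) (h3 : StD3) (h5 : StD5) (h6 : StD6)
    (h7 : StD7) (h8 : StD8) (hln : StLn) (n P G : ℕ) (hn : ln tbl = n)
    (hn17 : n ≤ 129236)
    (hP0 : P < 2 ^ (120 * n)) (hP : ∀ S < n, dg 120 P S = gT S ^ 2)
    (hG0 : G < 2 ^ (120 * n)) (hG : ∀ S < n, dg 120 G S = gT S)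
    (hk : (sv P fun P => runL 120 n 51 P prg P fun L =>
      runU 120 n 51 P (prg ++ [(true, 46)]) P fun U =>
      sv (bs 120 (fun _ v => v * v) tbl L) fun D =>
      sv (bs 120 (fun h _ => h) tbl (vm 120 tbl L * G % 2 ^ (120 * n))) fun C =>
      sv (bs 120 (fun h _ => h * h) tbl U) fun A =>
      Nat.ble (10002 * 2 * 131072 * 10000 * A * 2 ^ 46 + 3521 * 2499 * 9999 * (D * 2 ^ 52) + 1)
        (3521 * 2499 * 9999 * (2 * C * 2 ^ 26))) = true) :
    10002 * 2 * 131072 * 10000 * AA gT HT n 3521 < 3521 * 2499 * 9999 * BB gT HT n 3520 := by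
  rw [nu_sv] at hk
  have hPall : ∀ i, dg 120 P i < 2 ^ 51 := by
    intro i
    rcases lt_or_ge i n with hi | hi
    · rw [hP i hi]
      have := nu_gT_lt i
      calc gT i ^ 2 < (2 ^ 22) ^ 2 := Nat.pow_lt_pow_left this (by norm_num)
        _ < 2 ^ 51 := by norm_num
    · rw [nu_dg_ge hP0 hi]; norm_num
  have hn51 : n * 2 ^ (51 + 51) ≤ 2 ^ 120 := by
    calc n * 2 ^ (51 + 51) ≤ 129236 * 2 ^ (51 + 51) := Nat.mul_le_mul_right _ hn17
      _ ≤ 2 ^ 120 := by norm_num
  have hfL : fp prg (1, 0) = (3520, 161096) := by decide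
  have hfU : fp (prg ++ [(true, 46)]) (1, 0) = (3521, 161142) := by decide
  obtain ⟨L, hL, hL0, hLall, hLcf⟩ := h7 h1 h2 120 n 51 P gT (by norm_num) hn51 hP0 hPall hP
    prg P 1 0 _ (by decide) hP0 hPall (by
      intro S hS
      rw [nu_cf_one, hP S hS, pow_zero, mul_one]) hk
  obtain ⟨U, hU, hU0, hUall, hUcf⟩ := h8 h1 h2 h3 120 n 51 P gT (by norm_num) (by norm_num) hn51
    hP0 hPall hP (prg ++ [(true, 46)]) P 1 0 _ (by decide) hP0 hPall (by
      intro S hS
      rw [nu_cf_one, hP S hS, pow_zero, mul_one]) hL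
  rw [hfL] at hLcf
  rw [hfU] at hUcf
  simp only at hLcf hUcf
  rw [nu_sv, nu_sv, nu_sv] at hU
  have hU := Nat.le_of_ble_eq_true hU
  have hvlt : ∀ S, lk (fun _ v => v) tbl S < 2 ^ 13 :=
    nu_lk_lt _ _ (by norm_num) tbl (by decide)
  -- the array `v L`
  obtain ⟨hV0, hV⟩ := h5 120 51 tbl L (by norm_num) hLall (fun S => by
    calc lk (fun _ v => v) tbl S * 2 ^ 51 ≤ 2 ^ 13 * 2 ^ 51 :=
          Nat.mul_le_mul_right _ (le_of_lt (hvlt S))
      _ ≤ 2 ^ 120 := by norm_num)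
  rw [hn] at hV0 hV
  generalize vm 120 tbl L = Y at hU hV0 hV
  have hYall : ∀ i, dg 120 Y i < 2 ^ 64 := by
    intro i
    rcases lt_or_ge i n with hi | hi
    · rw [hV i hi]
      calc lk (fun _ v => v) tbl i * dg 120 L i < 2 ^ 13 * 2 ^ 51 :=
            Nat.mul_lt_mul_of_lt_of_lt (hvlt i) (hLall i)
        _ = 2 ^ 64 := by norm_num
    · rw [nu_dg_ge hV0 hi]; norm_num
  have hGall : ∀ i, dg 120 G i < 2 ^ 22 := by
    intro i
    rcases lt_or_ge i n with hi | hi
    · rw [hG i hi]; exact nu_gT_lt i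
    · rw [nu_dg_ge hG0 hi]; norm_num
  have hX := h1 120 n 64 22 Y G (by norm_num) hYall hGall hV0 hG0 (by
    calc n * 2 ^ (64 + 22) ≤ 129236 * 2 ^ (64 + 22) := Nat.mul_le_mul_right _ hn17
      _ ≤ 2 ^ 120 := by norm_num)
  have hX0 : Y * G % 2 ^ (120 * n) < 2 ^ (120 * n) := Nat.mod_lt _ (by positivity)
  generalize Y * G % 2 ^ (120 * n) = X at hU hX hX0
  have hXeq : ∀ S < n, dg 120 X S =
      ∑ i ∈ range (S + 1), (vT i * dg 120 L i) * gT (S - i) := by
    intro S hS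
    rw [hX S hS]
    apply Finset.sum_congr rfl
    intro i hi
    rw [Finset.mem_range] at hi
    rw [hV i (by omega), hG (S - i) (by omega)]
    rfl
  have hXall : ∀ i, dg 120 X i < 2 ^ 103 := by
    intro i
    rcases lt_or_ge i n with hi | hi
    · rw [hX i hi]
      calc ∑ j ∈ range (i + 1), dg 120 Y j * dg 120 G (i - j)
          ≤ ∑ j ∈ range (i + 1), 2 ^ 64 * 2 ^ 22 := by
            apply Finset.sum_le_sum
            intro j _
            exact Nat.mul_le_mul (le_of_lt (hYall j)) (le_of_lt (hGall _))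
        _ = (i + 1) * (2 ^ 64 * 2 ^ 22) := by
            rw [Finset.sum_const, Finset.card_range, smul_eq_mul]
        _ ≤ 129236 * (2 ^ 64 * 2 ^ 22) := Nat.mul_le_mul_right _ (by omega)
        _ < 2 ^ 103 := by norm_num
    · rw [nu_dg_ge hX0 hi]; norm_num
  have hD := h6 120 51 (fun _ v => v * v) tbl L (by norm_num) hLall (by
    rw [hn]
    calc n * 2 ^ 51 ≤ 129236 * 2 ^ 51 := Nat.mul_le_mul_right _ hn17
      _ < 2 ^ 120 - 1 := by norm_num)
  have hC := h6 120 103 (fun h _ => h) tbl X (by norm_num) hXall (by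
    rw [hn]
    calc n * 2 ^ 103 ≤ 129236 * 2 ^ 103 := Nat.mul_le_mul_right _ hn17
      _ < 2 ^ 120 - 1 := by norm_num)
  have hA := h6 120 51 (fun h _ => h * h) tbl U (by norm_num) hUall (by
    rw [hn]
    calc n * 2 ^ 51 ≤ 129236 * 2 ^ 51 := Nat.mul_le_mul_right _ hn17
      _ < 2 ^ 120 - 1 := by norm_num)
  rw [hn] at hD hC hA
  have hC' : bs 120 (fun h _ => h) tbl X =
      ∑ T ∈ range n, HT T * ∑ i ∈ range (T + 1), (vT i * dg 120 L i) * gT (T - i) := by
    rw [hC]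
    apply Finset.sum_congr rfl
    intro T hT
    rw [Finset.mem_range] at hT
    rw [hXeq T hT]
    rfl
  have hD' : bs 120 (fun _ v => v * v) tbl L = ∑ S ∈ range n, vT S * vT S * dg 120 L S := by
    rw [hD]
    apply Finset.sum_congr rfl
    intro S _
    rw [nu_lk_sqv]
    rfl
  have hA' : bs 120 (fun h _ => h * h) tbl U = ∑ S ∈ range n, HT S ^ 2 * dg 120 U S := by
    rw [hA]
    apply Finset.sum_congr rfl
    intro S _
    rw [nu_lk_sqh]
    rfl
  have hlin := hln gT HT vT (fun S => dg 120 L S) (fun S => cf gT 3520 S) n 26 161096 hLcf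
  have hpow : (2 : ℕ) ^ 161142 = 2 ^ 46 * 2 ^ 161096 := by rw [← pow_add]
  rw [hpow] at hUcf
  have hE : 0 < (2 : ℕ) ^ 161096 := by positivity
  rw [← hC', ← hD'] at hlin
  change 2 ^ 161096 * (2 * 2 ^ 26 * bs 120 (fun h _ => h) tbl X) ≤ BB gT HT n 3520 +
    2 ^ 161096 * (2 ^ (2 * 26) * bs 120 (fun _ v => v * v) tbl L) at hlin
  have hAA : AA gT HT n 3521 ≤ bs 120 (fun h _ => h * h) tbl U * (2 ^ 46 * 2 ^ 161096) := by
    rw [hA', Finset.sum_mul]
    unfold AA
    apply Finset.sum_le_sum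
    intro S hS
    rw [Finset.mem_range] at hS
    rw [mul_assoc]
    exact Nat.mul_le_mul_left _ (hUcf S hS)
  generalize (2 : ℕ) ^ 161096 = E at hlin hAA hE
  generalize bs 120 (fun h _ => h) tbl X = C at hlin hU
  generalize bs 120 (fun _ v => v * v) tbl L = D at hlin hU
  generalize bs 120 (fun h _ => h * h) tbl U = A at hAA hU
  have hmul := Nat.mul_le_mul_left E hU
  norm_num at hmul hlin hAA ⊢
  nlinarith [hmul, hlin, hAA, hE]

theorem hNu : StNu := by
  intro h1 h2 h3 h4 h5 h6 h7 h8 hln hck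
  have hg := h4 120 gv (by norm_num) (fun x l => lt_trans (nu_gv_lt x l) (by norm_num)) 10
  have hp := h4 120 (fun x l => gv x l ^ 2) (by norm_num) (fun x l => by
    calc gv x l ^ 2 < (2 ^ 22) ^ 2 := Nat.pow_lt_pow_left (nu_gv_lt x l) (by norm_num)
      _ < 2 ^ 120 := by norm_num) 10
  have hPn0 : Pn < 2 ^ (120 * 129236) := Nat.mod_lt _ (by positivity)
  have hGn0 : Gn < 2 ^ (120 * 129236) := Nat.mod_lt _ (by positivity)
  have hPn : ∀ S < 129236, dg 120 Pn S = gT S ^ 2 := by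
    intro S hS
    unfold Pn
    rw [nu_dg_mod hS]
    exact hp.2 S (by omega)
  have hGn : ∀ S < 129236, dg 120 Gn S = gT S := by
    intro S hS
    unfold Gn
    rw [nu_dg_mod hS]
    exact hg.2 S (by omega)
  unfold StCk chk at hck
  exact nu_core h1 h2 h3 h5 h6 h7 h8 hln 129236 Pn Gn (by decide) le_rfl hPn0 hPn hGn0 hGn hck

end Pool.Agent.Helper29.H2
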